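import Pool.Agent.W_3283e1_sm.Tan

set_option autoImplicit false

namespace W3283s

open Complex MeasureTheory Filter Topology BSDS BSDG

/-- The exponential identity for `ζ(1 + e^{iθ} s)`. -/
theorem Zet_exp (θ : ℝ) (hθ : |θ| < Real.pi / 2) (s : ℂ)
    (hs : 3 / Real.cos θ + |Real.tan θ| * |s.im| ≤ s.re) :
    FG (fun _ => 1) 1 θ s = Complex.exp (Es zWc (vG θ) s) := by
  have hc := Main_cos_pos θ hθ
  set z : ℂ := Complex.exp (θ * Complex.I) * s with hz
  have hzre : 3 ≤ z.re := by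
    have h1 : z.re = Real.cos θ * s.re - Real.sin θ * s.im := by
      rw [hz, Complex.mul_re, Complex.exp_ofReal_mul_I_re, Complex.exp_ofReal_mul_I_im]
    have h2 : Real.sin θ * s.im ≤ |Real.sin θ| * |s.im| := by
      rw [← abs_mul]
      exact le_abs_self _
    have h3 := mul_le_mul_of_nonneg_left hs hc.le
    have h4 : Real.cos θ * (3 / Real.cos θ + |Real.tan θ| * |s.im|) =
        3 + |Real.sin θ| * |s.im| := by
      rw [← Main_tan θ hθ]
      field_simp
    rw [h1]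
    linarith
  have hE : Es zWc (vG θ) s =
      ∑' i : Nat.Primes × ℕ, (zW i : ℂ) * Complex.exp (-((uW i : ℂ) * z)) := by
    unfold Es
    refine tsum_congr fun i => ?_
    have h1 : vG θ i * s = (uW i : ℂ) * z := by
      rw [vG, hz]
      ring
    rw [h1, zWc]
  rw [hE, zeta_exp z hzre, FG, ← hz, pow_one, one_mul]

/-- Mertens' theorem with smooth cut-off: `Gs_formula` for `F s = ζ(1 + e^{iθ} s)`, `q = -1`,
`ℓ = e^{-iθ}` (`zeta_near`, compare `FG_near`), `c = zWc`, `v = vG θ` (`GHyp_Z`; the exponential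
identity is `zeta_exp`, compare `FG_exp`, `Main_summable`).  No zeros on the positive axis, because
`Re (1 + x e^{iθ}) > 1` (`riemannZeta_ne_zero_of_one_le_re`), so `xs = []`. -/
theorem zeta_re (θ : ℝ) (hθ : |θ| < Real.pi / 2) :
    ∃ κ : ℝ, Tendsto (fun X : ℝ => (Gs zWc (vG θ) X).re - Real.log X) atTop (𝓝 κ) := by
  have hc := Main_cos_pos θ hθ
  have hnear : Tendsto (fun s : ℂ => (fun _ : ℂ => (1 : ℂ)) (1 + s) / s ^ 0) (𝓝[≠] 0) (𝓝 1) := by
    simp only [pow_zero, div_one]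
    exact tendsto_const_nhds
  have hw0 : Complex.exp (θ * Complex.I) ≠ 0 := Complex.exp_ne_zero _
  obtain ⟨xs, m, l, κ, -, hiff, -, hm, hform⟩ := Gs_formula (GHyp_Z θ hθ) (FG (fun _ => 1) 1 θ)
    (FG_diff _ (differentiable_const _) 1 θ) (fun s hs => Zet_exp θ hθ s hs)
    (((0 : ℕ) : ℤ) - (1 : ℕ)) (1 * Complex.exp (θ * Complex.I) ^ (((0 : ℕ) : ℤ) - (1 : ℕ)))
    (mul_ne_zero one_ne_zero (zpow_ne_zero _ hw0)) (FG_near (fun _ => 1) 0 1 θ 1 hnear)
  have hnil : xs = [] := by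
    apply hiff.1
    intro x hx
    have h1 : riemannZeta (1 + Complex.exp (θ * Complex.I) * x) ≠ 0 := by
      refine riemannZeta_ne_zero_of_one_lt_re ?_
      rw [Complex.add_re, Complex.one_re, mul_comm, Complex.re_ofReal_mul,
        Complex.exp_ofReal_mul_I_re]
      have := mul_pos hx hc
      linarith
    rw [FG, one_mul, pow_one]
    exact h1
  refine ⟨l.re - κ.re, ?_⟩
  have hmre : Tendsto (fun X => (m X).re - κ.re) atTop (𝓝 (l.re - κ.re)) :=
    ((Complex.continuous_re.tendsto l).comp hm).sub_const _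
  refine hmre.congr' ?_
  filter_upwards [hform] with X hX
  rw [hX, hnil]
  simp
  ring

/-- From `zeta_re` and `zeta_diff`. -/
theorem zeta_re_M (θ : ℝ) (hθ : |θ| < Real.pi / 2) :
    ∃ κ : ℝ, Tendsto (fun X : ℝ => (Gs cM (vK θ) X).re + Real.log X) atTop (𝓝 κ) := by
  obtain ⟨κ, hκ⟩ := zeta_re θ hθ
  refine ⟨0 - κ, ?_⟩
  have h1 : Tendsto (fun X : ℝ => (Gs cM (vK θ) X + Gs zWc (vG θ) X).re) atTop (𝓝 0) := by
    exact (Complex.continuous_re.tendsto' 0 0 Complex.zero_re).comp (zeta_diff θ hθ)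
  refine (h1.sub hκ).congr fun X => ?_
  rw [Complex.add_re]
  ring

end W3283s
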