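import Pool.Agent.W_3283e1_sm.Half
import Pool.Agent.W_3283e1_sm.Zet

set_option autoImplicit false

namespace W3283s

open Complex MeasureTheory Filter Topology BSDS BSDG

/-- `Gs (cG W r) = Gs (cWc W) + r Gs zWc`. -/
theorem Gs_cG (W : WeierstrassCurve ℤ) (r : ℕ) (θ : ℝ) (hθ : |θ| < Real.pi / 2) (X : ℝ)
    (hX : 0 < X) :
    Gs (cG W r) (vG θ) X = Gs (cWc W) (vG θ) X + r * Gs zWc (vG θ) X := by
  have h1 := Gs_summable (GHyp_W W θ hθ) X hX
  have h2 := Gs_summable (GHyp_Z θ hθ) X hX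
  unfold Gs
  rw [← tsum_mul_left, ← h1.tsum_add (h2.mul_left _)]
  refine tsum_congr fun i => ?_
  rw [cG, cWc, zWc]
  push_cast
  ring

/-- `sm` in terms of the means: real part of a sum of real multiples (`Complex.re_tsum`,
`Gs_summable` with `GHyp_K`, `GHyp_M`), `vK θ p / X = e^{iθ} (log p / X)`. -/
theorem sm_eq (k : ℕ) (c : ℤ) (ρ θ : ℝ) (hθ : |θ| < Real.pi / 2) (X : ℝ) (hX : 0 < X) :
    sm k c ρ θ X = (Gs (cK k c) (vK θ) X).re + ρ * (Gs cM (vK θ) X).re := by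
  have h1 := Gs_summable (GHyp_K k c θ hθ) X hX
  have h2 := Gs_summable (GHyp_M θ hθ) X hX
  have e1 : (Gs (cK k c) (vK θ) X).re = ∑' p : Nat.Primes, (cK k c p * gw (vK θ p / X)).re :=
    Complex.reCLM.map_tsum h1
  have e2 : (Gs cM (vK θ) X).re = ∑' p : Nat.Primes, (cM p * gw (vK θ p / X)).re :=
    Complex.reCLM.map_tsum h2
  have s1 : Summable fun p : Nat.Primes => (cK k c p * gw (vK θ p / X)).re :=
    h1.mapL Complex.reCLM
  have s2 : Summable fun p : Nat.Primes => (cM p * gw (vK θ p / X)).re :=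
    h2.mapL Complex.reCLM
  rw [e1, e2, ← tsum_mul_left, ← s1.tsum_add (s2.mul_left _)]
  unfold sm
  refine tsum_congr fun p => ?_
  rw [gw_im, cK, cM, vK, Complex.re_ofReal_mul, Complex.re_ofReal_mul]
  ring

/-- The explicit formula (`Gs_formula`) for `F = FG L r θ`, `q = 0`, `ℓ = l`: `GHyp_G`, `FG_diff`,
`FG_exp` (`Wk_prod`), `FG_near` with `n = r` (`Main_shift`).  `FG L r θ x ≠ 0` for `x > 0` if and only
if `L(1 + x e^{iθ}) ≠ 0` (`ζ` has no zeros there).  `Re m → Re l'`, and `exp l' = l` gives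
`Re l' = log |l|` (`Complex.norm_exp`) if `xs = []`. -/
theorem form (k : ℕ) (c : ℤ) (L : ℂ → ℂ) (h : LK k c L) (r : ℕ) (l : ℝ) (hl : l ≠ 0)
    (hlim : Tendsto (fun s : ℂ => L s / (s - 1) ^ r) (𝓝[≠] 1) (𝓝 (l : ℂ))) (θ : ℝ)
    (hθ : |θ| < Real.pi / 2) :
    ∃ (xs : List ℝ) (m : ℝ → ℝ) (l' : ℝ), (∀ x ∈ xs, 0 < x) ∧
      ((∀ x : ℝ, 0 < x → L (1 + x * Complex.exp (θ * Complex.I)) ≠ 0) ↔ xs = []) ∧
      (xs = [] → l' = Real.log |l|) ∧ Tendsto m atTop (𝓝 l') ∧
      ∀ᶠ X : ℝ in atTop, (Gs (cG (Wk k c) r) (vG θ) X).re =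
        m X + (xs.map (fun z => (Gs (cP z) vP X).re)).sum := by
  have hc := Main_cos_pos θ hθ
  have hw0 : Complex.exp (θ * Complex.I) ≠ 0 := Complex.exp_ne_zero _
  have hlc : (l : ℂ) ≠ 0 := by exact_mod_cast hl
  obtain ⟨xs, m, l', κ, hxs, hiff, hexp, hm, hform⟩ := Gs_formula (GHyp_G (Wk k c) r θ hθ)
    (FG L r θ) (FG_diff L h.hL r θ)
    (fun s hs => FG_exp (Wk k c) L (fun s hs => Wk_prod k c L h s hs) r θ hθ s hs) ((r : ℤ) - r)
    (l * Complex.exp (θ * Complex.I) ^ ((r : ℤ) - r)) (mul_ne_zero hlc (zpow_ne_zero _ hw0))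
    (FG_near L r r θ l ((Main_shift L r l).1 hlim))
  refine ⟨xs, fun X => (m X).re, l'.re, hxs, ?_, ?_, ?_, ?_⟩
  · rw [← hiff]
    refine forall_congr' fun x => forall_congr' fun hx => ?_
    have h1 : riemannZeta (1 + Complex.exp (θ * Complex.I) * x) ≠ 0 := by
      refine riemannZeta_ne_zero_of_one_lt_re ?_
      rw [Complex.add_re, Complex.one_re, mul_comm, Complex.re_ofReal_mul,
        Complex.exp_ofReal_mul_I_re]
      have := mul_pos hx hc
      linarith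
    rw [FG, mul_comm (x : ℂ)]
    simp only [ne_eq, mul_eq_zero, not_or]
    exact ⟨fun h => ⟨h, pow_ne_zero _ h1⟩, fun h => h.1⟩
  · intro hnil
    have h1 := hexp hnil
    rw [sub_self, zpow_zero, mul_one] at h1
    have h2 := congrArg norm h1
    rw [Complex.norm_exp, Complex.norm_real, Real.norm_eq_abs] at h2
    rw [← h2, Real.log_exp]
  · exact (Complex.continuous_re.tendsto l').comp hm
  · filter_upwards [hform] with X hX
    rw [hX, Complex.add_re, Complex.add_re, Abs_re_sum, sub_self, Int.cast_zero, zero_mul,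
      Complex.zero_re, add_zero]

/-- The real part of `Gs cK`: by `half`, `Gs_cG`, `zeta_diff`,
`sm k c ρ θ X = log 2 / 2 - Re (Gs (cG (Wk k c) r)) + (r - ρ) Re (Gs zWc) + o(1)`. -/
theorem sm_form (k : ℕ) (c : ℤ) (L : ℂ → ℂ) (h : LK k c L) (r : ℕ) (ρ θ : ℝ)
    (hθ : |θ| < Real.pi / 2) :
    Tendsto (fun X : ℝ => sm k c ρ θ X + (Gs (cG (Wk k c) r) (vG θ) X).re -
      (r - ρ) * (Gs zWc (vG θ) X).re) atTop (𝓝 (Real.log 2 / 2)) := by
  have h1 := half k c L h θ hθ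
  have h2 : Tendsto (fun X : ℝ => (Gs cM (vK θ) X).re + (Gs zWc (vG θ) X).re) atTop (𝓝 0) := by
    have h3 := (Complex.continuous_re.tendsto 0).comp (zeta_diff θ hθ)
    rw [Complex.zero_re] at h3
    refine h3.congr fun X => ?_
    rw [Function.comp_apply, Complex.add_re]
  have h3 := h1.add (h2.const_mul ρ)
  rw [mul_zero, add_zero] at h3
  refine h3.congr' ?_
  filter_upwards [eventually_gt_atTop 0] with X hX
  rw [sm_eq k c ρ θ hθ X hX, Gs_cG (Wk k c) r θ hθ X hX, Complex.add_re]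
  have h4 : ((r : ℂ) * Gs zWc (vG θ) X).re = r * (Gs zWc (vG θ) X).re := by
    rw [← Complex.ofReal_natCast, Complex.re_ofReal_mul]
  rw [h4]
  ring

/-- The main theorem for one direction.  With `form` and `sm_form`: if `xs ≠ []`, `sm` tends to `+∞`
(`Abs_sum_atBot`, `zeta_re`); if `xs = []` and `ρ = r` the limit is
`log 2 / 2 - log |l| = log (√2/|l|)`; if `xs = []` and `ρ ≠ r` then `|sm| → ∞` (`zeta_re`). -/
theorem main_one (k : ℕ) (c : ℤ) (L : ℂ → ℂ) (h : LK k c L) (r : ℕ) (l : ℝ) (hl : l ≠ 0)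
    (hlim : Tendsto (fun s : ℂ => L s / (s - 1) ^ r) (𝓝[≠] 1) (𝓝 (l : ℂ))) (θ : ℝ)
    (hθ : |θ| < Real.pi / 2) (ρ lam : ℝ) :
    Tendsto (sm k c ρ θ) atTop (𝓝 lam) ↔
      (ρ = r ∧ lam = Real.log (Real.sqrt 2 / |l|)) ∧
        ∀ x : ℝ, 0 < x → L (1 + x * Complex.exp (θ * Complex.I)) ≠ 0 := by
  obtain ⟨xs, m, l', hxs, hiff, hl', hm, hform⟩ := form k c L h r l hl hlim θ hθ
  have hT := sm_form k c L h r ρ θ hθ
  obtain ⟨κ, hκ⟩ := zeta_re θ hθ
  have habs : 0 < |l| := abs_pos.2 hl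
  have hs2 : 0 < Real.sqrt 2 := Real.sqrt_pos.2 (by norm_num)
  have hlog : Real.log (Real.sqrt 2 / |l|) = Real.log 2 / 2 - Real.log |l| := by
    rw [Real.log_div hs2.ne' habs.ne', Real.log_sqrt (by norm_num)]
  -- the bounded part
  have hbd : Tendsto (fun X : ℝ => (sm k c ρ θ X + (Gs (cG (Wk k c) r) (vG θ) X).re -
      (r - ρ) * (Gs zWc (vG θ) X).re) - m X + (r - ρ) * ((Gs zWc (vG θ) X).re - Real.log X)) atTop
      (𝓝 (Real.log 2 / 2 - l' + (r - ρ) * κ)) := (hT.sub hm).add (hκ.const_mul _)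
  by_cases hnil : xs = []
  · have hre : ∀ᶠ X : ℝ in atTop, (Gs (cG (Wk k c) r) (vG θ) X).re = m X := by
      filter_upwards [hform] with X hX
      rw [hX, hnil]
      simp
    have hF0 := hiff.2 hnil
    have hll := hl' hnil
    by_cases hρ : ρ = r
    · have hsm : Tendsto (sm k c ρ θ) atTop (𝓝 (Real.log (Real.sqrt 2 / |l|))) := by
        have h1 : Real.log 2 / 2 - l' + (r - ρ) * κ = Real.log (Real.sqrt 2 / |l|) := by
          rw [hlog, hll, hρ]
          ring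
        rw [h1] at hbd
        refine hbd.congr' ?_
        filter_upwards [hre] with X hX
        rw [hX, hρ]
        ring
      constructor
      · intro h1
        exact ⟨⟨hρ, tendsto_nhds_unique h1 hsm⟩, hF0⟩
      · rintro ⟨⟨-, h1⟩, -⟩
        rw [h1]
        exact hsm
    · constructor
      · intro h1
        exfalso
        have hne : (r : ℝ) - ρ ≠ 0 := fun h2 => hρ (by linarith)
        have h2 : Tendsto (fun X : ℝ => ((r : ℝ) - ρ) * Real.log X) atTop
            (𝓝 (lam - (Real.log 2 / 2 - l' + (r - ρ) * κ))) := by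
          refine (h1.sub hbd).congr' ?_
          filter_upwards [hre] with X hX
          rw [hX]
          ring
        have h3 := h2.const_mul ((r : ℝ) - ρ)⁻¹
        have h4 : Tendsto Real.log atTop (𝓝 (((r : ℝ) - ρ)⁻¹ *
            (lam - (Real.log 2 / 2 - l' + (r - ρ) * κ)))) := by
          refine h3.congr fun X => ?_
          rw [← mul_assoc, inv_mul_cancel₀ hne, one_mul]
        exact not_tendsto_nhds_of_tendsto_atTop Real.tendsto_log_atTop _ h4
      · rintro ⟨⟨h1, -⟩, -⟩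
        exact absurd h1 hρ
  · constructor
    · intro h1
      exfalso
      obtain ⟨x, ys, rfl⟩ := List.exists_cons_of_ne_nil hnil
      have h2 := Abs_sum_atBot x (hxs x (by simp)) ys (fun z hz => hxs z (by simp [hz]))
        (-((r : ℝ) - ρ))
      have h3 : Tendsto (fun X : ℝ => sm k c ρ θ X + ((Gs (cP x) vP X).re +
          (ys.map (fun z => (Gs (cP z) vP X).re)).sum + (-((r : ℝ) - ρ)) * Real.log X)) atTop
          (𝓝 (Real.log 2 / 2 - l' + (r - ρ) * κ)) := by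
        refine hbd.congr' ?_
        filter_upwards [hform] with X hX
        rw [hX]
        simp only [List.map_cons, List.sum_cons]
        ring
      exact not_tendsto_nhds_of_tendsto_atBot (h1.add_atBot h2) _ h3
    · rintro ⟨-, h1⟩
      exact absurd (hiff.1 h1) hnil

/-- the possible `(n, j)` for the small `k` (see the proof of `main_small`) -/
theorem Main_case (k : ℕ) (c : ℤ) (n f i j : ℕ) (L : ℂ → ℂ) (r : ℕ) (l V : ℝ)
    (h : W3283g.SU k c n f i j L r l V) (hsm : (c = -1 ∧ k ≤ 7) ∨ (c = 1 ∧ k ≤ 4)) :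
    ((n = 1 ∧ j = 0) ∨ (n = 1 ∧ j = 1) ∨ (n = 3 ∧ j = 0)) ∨
      (n = 5 ∧ j = 0) ∨ (n = 3 ∧ j = 1) ∨ (n = 7 ∧ j = 0) := by
  have hk7 : k ≤ 7 := by
    rcases hsm with h1 | h1
    · exact h1.2
    · omega
  have hkp := h.hk
  have hn0 : 0 < n := h.hn.pos
  have hkf := h.hkf
  have hi : i = 0 ∨ i = 1 := by
    rcases h.hcase with h1 | h1 | h1 | h1
    · exact Or.inl h1.2.1
    · exact Or.inr h1.2.1
    · exact Or.inl h1.2.1
    · exact Or.inr h1.2.1
  have h2i : 2 ^ i = 1 + i := by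
    rcases hi with rfl | rfl <;> norm_num
  rw [h2i] at hkf
  have hf0 : f ≠ 0 := by
    rintro rfl
    simp at hkf
    omega
  have hf3 : f < 3 := by
    by_contra hf
    have hf' : 3 ≤ f := not_lt.1 hf
    have h1 : 9 ≤ f ^ 2 := by nlinarith
    have h2 : 1 ≤ (1 + i) * n := Nat.mul_pos (by omega) hn0
    have h3 : 9 ≤ (1 + i) * n * f ^ 2 := by nlinarith
    omega
  obtain ⟨m, hm⟩ := h.hn
  have hcase := h.hcase
  have hf12 : f = 1 ∨ f = 2 := by omega
  have hdat : ((f = 1 ∧ k = n) ∨ (f = 2 ∧ k = 4 * n)) ∧ i = 0 ∨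
      ((f = 1 ∧ k = 2 * n) ∨ (f = 2 ∧ k = 8 * n)) ∧ i = 1 := by
    rcases hi with rfl | rfl <;> rcases hf12 with rfl | rfl
    · left; refine ⟨Or.inl ⟨rfl, ?_⟩, rfl⟩; omega
    · left; refine ⟨Or.inr ⟨rfl, ?_⟩, rfl⟩; omega
    · right; refine ⟨Or.inl ⟨rfl, ?_⟩, rfl⟩; omega
    · right; refine ⟨Or.inr ⟨rfl, ?_⟩, rfl⟩; omega
  omega

/-- No real zeros for small `k`: `small_fam` (module `NumD` of W_3283e1_h53) with the fields `hlim'`,
`hzero` of `SU` for `Re s ≤ 3/2` (compare the proof of `main_small`), and absolute convergence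
(`hprod`: the factors of a convergent product with nonzero factors; see the proof of `finH_noreal`, or
`FG_exp`-like formula, or `main_fwd`) for `Re s > 3/2`. -/
theorem no_real (k : ℕ) (c : ℤ) (L : ℂ → ℂ) (h : LK k c L)
    (hsm : (c = -1 ∧ k ≤ 7) ∨ (c = 1 ∧ k ≤ 4)) (x : ℝ) (hx : 0 < x) : L (1 + x) ≠ 0 := by
  rcases le_or_gt x (1 / 2) with hx2 | hx2
  · obtain ⟨n, f, i, j, L', r, l, V, h'⟩ := W3283g.setup k h.hk c h.hc
    have hLL : L' = L := LK_unique k c L' L ⟨h'.hk, h'.hc, h'.hL, h'.hprod⟩ h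
    subst hLL
    have hnj := Main_case k c n f i j L' r l V h' hsm
    obtain ⟨hz, -, -⟩ := W3283g.small_fam n j r (l / V) (div_ne_zero h'.hl h'.hV.ne') h'.hlim' hnj
    intro h0
    refine hz x (by rwa [Complex.ofReal_re]) (by rwa [Complex.ofReal_re])
      (by rw [Complex.ofReal_im, abs_zero]; norm_num) ?_
    exact (h'.hzero x (by rw [Complex.ofReal_re]; exact hx.le)).1 h0
  · obtain ⟨Q, hQ, -, hid⟩ := core k c L h
    intro h0
    have h1 := hid x (by rwa [Complex.ofReal_re])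
    rw [h0] at h1
    refine (hQ x (by rw [Complex.ofReal_re]; exact hx.le)).2 ?_
    rw [← h1]
    simp

end W3283s
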