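import Pool.Agent.W_3283e1_sm.Cur
import Pool.Agent.W_3283e1_h53.NearZ

set_option autoImplicit false

namespace W3283s

open Complex MeasureTheory Filter Topology BSDS BSDG W3283e1 W3283f W3283g

theorem Core_cpow (p : ℕ) (hp : p.Prime) (s : ℂ) :
    (p : ℂ) ^ (-s) = Complex.exp (-(s * Real.log p)) := by
  have hp0 : (p : ℂ) ≠ 0 := by exact_mod_cast hp.ne_zero
  rw [Complex.cpow_def_of_ne_zero hp0, Complex.natCast_log]
  congr 1
  ring

/-- `GG α s` is the sum over the odd primes of `ell (α p) p · p^{-s}`; splitting off the primes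
dividing `k`, where the terms of `gk` are `0`, and using `hcount` for the others. -/
theorem GG_split (n j k : ℕ) (c : ℤ) (hk : 0 < k) (hj : j = 0 ∨ j = 1) (hn : Odd n)
    (hs : Squarefree n)
    (hcount : ∀ p : ℕ, p.Prime → p ≠ 2 → ¬ p ∣ k →
      (W3283e1.npts (c * k ^ 2) 0 p : ℝ) = p + 1 - 2 * (alF n j p).re) (s : ℂ) (h : 1 / 2 < s.re) :
    Summable (fun p : Nat.Primes => (gk k c p : ℂ) * Complex.exp (-(s * Real.log (p : ℕ)))) ∧
    GG (alF n j) s = (∑' p : Nat.Primes, (gk k c p : ℂ) * Complex.exp (-(s * Real.log (p : ℕ)))) +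
      ∑ p ∈ k.primeFactors.erase 2, (ell (alF n j p) p : ℂ) * Complex.exp (-(s * Real.log p)) := by
  classical
  have hGG := hasSum_GG (alF n j) (norm_alF n j) s h
  obtain ⟨g, hg⟩ : ∃ g : Nat.Primes → ℂ, g = fun p : Nat.Primes => if (p : ℕ) = 2 then 0 else
      (ell (alF n j p) p : ℂ) * Complex.exp (-(s * Real.log (p : ℕ))) := ⟨_, rfl⟩
  obtain ⟨f, hf⟩ : ∃ f : Nat.Primes → ℂ, f = fun p : Nat.Primes =>
      if (p : ℕ) ∈ k.primeFactors.erase 2 then
      (ell (alF n j p) p : ℂ) * Complex.exp (-(s * Real.log (p : ℕ))) else 0 := ⟨_, rfl⟩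
  have h1 : HasSum g (GG (alF n j) s) := by
    let i : OP → Nat.Primes := fun p => ⟨p.1, p.2.1⟩
    have hinj : Function.Injective i := by
      intro a b hab
      apply Subtype.ext
      exact congrArg (fun q : Nat.Primes => (q : ℕ)) hab
    refine (hinj.hasSum_iff (f := g) ?_).1 ?_
    · intro p hp
      rw [hg]
      simp only []
      rw [if_pos]
      by_contra h2
      exact hp ⟨⟨p.1, p.2, h2⟩, rfl⟩
    · refine hGG.congr_fun fun p => ?_
      rw [hg]
      show (if (p : ℕ) = 2 then 0 else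
        (ell (alF n j p) p : ℂ) * Complex.exp (-(s * Real.log (p : ℕ)))) = _
      rw [if_neg p.2.2, Core_cpow p.1 p.2.1]
  have h2 : HasSum f (∑ p ∈ k.primeFactors.erase 2,
      (ell (alF n j p) p : ℂ) * Complex.exp (-(s * Real.log p))) := by
    have h3 : HasSum f (∑ p ∈ (k.primeFactors.erase 2).subtype Nat.Prime, f p) := by
      refine hasSum_sum_of_ne_finset_zero fun p hp => ?_
      rw [hf]
      simp only []
      rw [if_neg]
      intro h4
      exact hp (Finset.mem_subtype.2 h4)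
    have h5 : ∑ p ∈ (k.primeFactors.erase 2).subtype Nat.Prime, f p =
        ∑ p ∈ k.primeFactors.erase 2,
          (ell (alF n j p) p : ℂ) * Complex.exp (-(s * Real.log p)) := by
      have h6 : ∑ p ∈ (k.primeFactors.erase 2).subtype Nat.Prime, f p =
          ∑ p ∈ (k.primeFactors.erase 2).subtype Nat.Prime,
            (fun q : ℕ => (ell (alF n j q) q : ℂ) * Complex.exp (-(s * Real.log q))) p := by
        refine Finset.sum_congr rfl fun p hp => ?_
        rw [hf]
        simp only []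
        rw [if_pos (Finset.mem_subtype.1 hp)]
      rw [h6, Finset.sum_subtype_eq_sum_filter
        (fun q : ℕ => (ell (alF n j q) q : ℂ) * Complex.exp (-(s * Real.log q)))]
      refine Finset.sum_congr ?_ fun _ _ => rfl
      rw [Finset.filter_true_of_mem]
      intro p hp
      exact Nat.prime_of_mem_primeFactors (Finset.mem_of_mem_erase hp)
    rwa [h5] at h3
  have h3 := h1.sub h2
  have h4 : (fun p : Nat.Primes => (gk k c p : ℂ) * Complex.exp (-(s * Real.log (p : ℕ)))) =
      fun p => g p - f p := by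
    funext p
    rw [hg, hf]
    simp only []
    have hpp := p.2
    by_cases hp2 : (p : ℕ) = 2
    · rw [if_pos hp2, if_neg (by rw [hp2]; simp)]
      unfold gk
      rw [if_pos (by rw [hp2]; exact Dvd.intro _ rfl)]
      simp
    · rw [if_neg hp2]
      by_cases hpk : (p : ℕ) ∣ k
      · rw [if_pos (Finset.mem_erase.2 ⟨hp2, Nat.mem_primeFactors.2 ⟨hpp, hpk, hk.ne'⟩⟩)]
        unfold gk
        rw [if_pos (Dvd.dvd.mul_left hpk 2)]
        simp
      · rw [if_neg (fun h5 => hpk (Nat.dvd_of_mem_primeFactors (Finset.mem_of_mem_erase h5)))]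
        unfold gk
        rw [if_neg, hcount p hpp hp2 hpk, sub_zero]
        · rfl
        · rw [hpp.dvd_mul]
          rintro (h5 | h5)
          · exact hp2 ((Nat.prime_dvd_prime_iff_eq hpp Nat.prime_two).1 h5)
          · exact hpk h5
  rw [h4]
  refine ⟨h3.summable, ?_⟩
  rw [h3.tsum_eq]
  ring

/-- The basic identity for the good primes.  `Lk_exists` (module `FinH` of W_MP_3283e1_h19) gives `n`,
`j`, `L'`, `v`; `L' = L` by `LK_unique`.  `Q_full` for `LLF n j`, `WW` (`dataR_fam`) gives `Q'`, and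
`Q s = Q' s * v (1 + s)^2 * exp (-2 Σ_{p ∣ k, p ≠ 2} ell (α p) p · p^{-s})` (`GG_split`).
`Q 0 = 2`: `v 1 = Π_{p ∣ k, p ≠ 2} (p + 1 - 2 Re α p)/p` is real (`ell` is the logarithm of the factor,
which is positive). -/
theorem core (k : ℕ) (c : ℤ) (L : ℂ → ℂ) (h : LK k c L) :
    ∃ Q : ℂ → ℂ, (∀ s : ℂ, 0 ≤ s.re → AnalyticAt ℂ Q s ∧ Q s ≠ 0) ∧ Q 0 = 2 ∧
      ∀ s : ℂ, 1 / 2 < s.re → (L (1 + s)) ^ 2 * Complex.exp (2 *
        ∑' p : Nat.Primes, (gk k c p : ℂ) * Complex.exp (-(s * Real.log (p : ℕ)))) = Q s := by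
  obtain ⟨n, j, L', v, hn, hs, hj, -, -, hcount, hLd, hLp, hLv, hv, hv1⟩ :=
    Lk_exists k h.hk c h.hc
  have hLL : L = L' := LK_unique k c L L' h ⟨h.hk, h.hc, hLd, hLp⟩
  subst hLL
  have hR := dataR_fam n j hj hn hs
  obtain ⟨Q', hQ', hQ'0, -, hid⟩ := Q_full (alF n j) (LLF n j) WW hR
  obtain ⟨E, hE⟩ : ∃ E : ℂ → ℂ, E = fun s => ∑ p ∈ k.primeFactors.erase 2,
      (ell (alF n j p) p : ℂ) * Complex.exp (-(s * Real.log p)) := ⟨_, rfl⟩
  have hEa : ∀ s, AnalyticAt ℂ E s := by
    intro s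
    rw [hE]
    refine Finset.analyticAt_fun_sum _ fun p _ => ?_
    refine analyticAt_const.mul ?_
    exact ((analyticAt_id.mul analyticAt_const).neg).cexp
  refine ⟨fun s => Q' s * v (1 + s) ^ 2 * Complex.exp (-(2 * E s)), ?_, ?_, ?_⟩
  · intro s hs0
    have h1 : 3 / 4 < (1 + s).re := by
      rw [Complex.add_re, Complex.one_re]
      linarith
    obtain ⟨-, hva, hvne⟩ := hLv (1 + s) h1
    have hva' : AnalyticAt ℂ (fun s : ℂ => v (1 + s)) s :=
      hva.fun_comp (analyticAt_const.add analyticAt_id)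
    refine ⟨(((hQ' s hs0).1.mul (hva'.pow 2)).mul ((analyticAt_const.mul (hEa s)).neg).cexp), ?_⟩
    exact mul_ne_zero (mul_ne_zero (hQ' s hs0).2 (pow_ne_zero 2 hvne)) (Complex.exp_ne_zero _)
  · have hv1' : v 1 = (((v 1).re : ℝ) : ℂ) := by
      have h2 := hv 1 (by norm_num)
      rw [Complex.ofReal_one] at h2
      exact Complex.ext (by simp) (by simp [h2.2])
    have hE0 : E 0 = ((∑ p ∈ k.primeFactors.erase 2, ell (alF n j p) p : ℝ) : ℂ) := by
      rw [hE]
      simp
    have hexp : Real.exp (∑ p ∈ k.primeFactors.erase 2, ell (alF n j p) p) = (v 1).re := by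
      rw [hv1, Real.exp_sum]
      refine Finset.prod_congr rfl fun p hp => ?_
      have hpp := Nat.prime_of_mem_primeFactors (Finset.mem_of_mem_erase hp)
      have hp2 := Finset.ne_of_mem_erase hp
      rw [ell, Real.exp_log (ratio_pos _ p hpp (norm_alF n j p hpp hp2))]
    show Q' 0 * v (1 + 0) ^ 2 * Complex.exp (-(2 * E 0)) = 2
    rw [add_zero, hQ'0, Complex.exp_neg, two_mul (E 0), Complex.exp_add, hE0, ← Complex.ofReal_exp,
      hexp, hv1']
    have h5 : (((v 1).re : ℝ) : ℂ) ≠ 0 := by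
      have h2 := hv 1 (by norm_num)
      rw [Complex.ofReal_one] at h2
      exact_mod_cast h2.1.ne'
    simp only [Complex.ofReal_re]
    field_simp
  · intro s h12
    have h1 : 3 / 4 < (1 + s).re := by
      rw [Complex.add_re, Complex.one_re]
      linarith
    obtain ⟨hL1, -, -⟩ := hLv (1 + s) h1
    obtain ⟨-, hsplit⟩ := GG_split n j k c h.hk hj hn hs hcount s h12
    have h2 : (∑' p : Nat.Primes, (gk k c p : ℂ) * Complex.exp (-(s * Real.log (p : ℕ)))) =
        GG (alF n j) s - E s := by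
      rw [hsplit, hE]
      ring
    rw [h2, hL1]
    show _ = Q' s * v (1 + s) ^ 2 * Complex.exp (-(2 * E s))
    rw [← hid s h12]
    have h3 : 2 * (GG (alF n j) s - E s) = 2 * GG (alF n j) s + -(2 * E s) := by ring
    rw [h3, Complex.exp_add]
    ring

end W3283s
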