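import Pool.Agent.W_3283e1_sm.Defs

set_option autoImplicit false

namespace W3283s

open Complex MeasureTheory Filter Topology BSDS BSDG

theorem Wk_disc (k : ℕ) (c : ℤ) : (Wk k c).Δ = -64 * (c * (k : ℤ) ^ 2) ^ 3 := by
  simp only [Wk, WeierstrassCurve.Δ, WeierstrassCurve.b₂, WeierstrassCurve.b₄,
    WeierstrassCurve.b₆, WeierstrassCurve.b₈]
  ring

theorem Wk_dvd (k : ℕ) (c : ℤ) (hc : c = 1 ∨ c = -1) (p : ℕ) (hp : p.Prime) :
    (p : ℤ) ∣ (Wk k c).Δ ↔ p ∣ 2 * k := by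
  have hpi : Prime (p : ℤ) := Nat.prime_iff_prime_int.1 hp
  have h1 : (Wk k c).Δ = -(c ^ 3) * ((2 * k : ℕ) : ℤ) ^ 6 := by
    rw [Wk_disc]
    push_cast
    ring
  have h2 : (p : ℤ) ∣ ((2 * k : ℕ) : ℤ) ^ 6 ↔ p ∣ 2 * k := by
    rw [← Int.natCast_dvd_natCast]
    exact ⟨fun h => hpi.dvd_of_dvd_pow h, fun h => dvd_pow h (by norm_num)⟩
  rw [h1, ← h2]
  rcases hc with rfl | rfl
  · rw [one_pow, neg_one_mul, dvd_neg]
  · rw [show (-((-1 : ℤ) ^ 3)) = 1 by norm_num, one_mul]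

theorem Cur_card (a b : ℤ) (p : ℕ) [Fact p.Prime] :
    W3283e1.npts a b p = ((Finset.univ : Finset (ZMod p × ZMod p)).filter
        (fun q => q.2 ^ 2 = q.1 ^ 3 + (a : ZMod p) * q.1 + (b : ZMod p))).card + 1 := by
  classical
  have hcard : ((Finset.range p ×ˢ Finset.range p).filter
      (fun q : ℕ × ℕ => (p : ℤ) ∣ (q.2 : ℤ) ^ 2 - ((q.1 : ℤ) ^ 3 + a * (q.1 : ℤ) + b))).card =
      ((Finset.univ : Finset (ZMod p × ZMod p)).filter
        (fun q => q.2 ^ 2 = q.1 ^ 3 + (a : ZMod p) * q.1 + (b : ZMod p))).card := by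
    have key : ∀ x y : ℤ, ((p : ℤ) ∣ y ^ 2 - (x ^ 3 + a * x + b)) ↔
        ((y : ZMod p) ^ 2 = (x : ZMod p) ^ 3 + (a : ZMod p) * (x : ZMod p) + (b : ZMod p)) := by
      intro x y
      rw [← ZMod.intCast_zmod_eq_zero_iff_dvd]
      push_cast
      exact sub_eq_zero
    refine Finset.card_nbij' (fun q : ℕ × ℕ => ((q.1 : ZMod p), (q.2 : ZMod p)))
      (fun q => (q.1.val, q.2.val)) ?_ ?_ ?_ ?_
    · intro q hq
      rw [Finset.mem_coe, Finset.mem_filter] at hq ⊢
      have h1 := (key _ _).1 hq.2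
      push_cast at h1
      exact ⟨Finset.mem_univ _, h1⟩
    · intro q hq
      rw [Finset.mem_coe, Finset.mem_filter] at hq ⊢
      refine ⟨?_, ?_⟩
      · rw [Finset.mem_product, Finset.mem_range, Finset.mem_range]
        exact ⟨ZMod.val_lt _, ZMod.val_lt _⟩
      · rw [key]
        push_cast
        rw [ZMod.natCast_zmod_val, ZMod.natCast_zmod_val]
        exact hq.2
    · intro q hq
      rw [Finset.mem_coe, Finset.mem_filter, Finset.mem_product, Finset.mem_range,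
        Finset.mem_range] at hq
      exact Prod.ext (ZMod.val_cast_of_lt hq.1.1) (ZMod.val_cast_of_lt hq.1.2)
    · intro q _
      exact Prod.ext (ZMod.natCast_zmod_val _) (ZMod.natCast_zmod_val _)
  unfold W3283e1.npts
  rw [hcard]

/-- The two counts of points agree (`W3283e1.npts` counts pairs in `range p × range p`, see the proof
of `W3283e1.npts_eq`). -/
theorem Wk_npts (k : ℕ) (c : ℤ) (p : ℕ) (hp : p.Prime) :
    BSDS.npts (Wk k c) p = W3283e1.npts (c * k ^ 2) 0 p := by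
  classical
  have : Fact p.Prime := ⟨hp⟩
  rw [Cur_card]
  unfold BSDS.npts
  rw [add_comm 1]
  congr 1
  rw [Nat.card_eq_fintype_card, Fintype.card_subtype]
  congr 1
  ext q
  simp only [Finset.mem_filter, Finset.mem_univ, true_and]
  rw [WeierstrassCurve.Affine.equation_iff]
  simp [Wk, WeierstrassCurve.map, WeierstrassCurve.toAffine]

theorem Cur_two : ∀ a : ZMod 2, ((Finset.univ : Finset (ZMod 2 × ZMod 2)).filter
    (fun q => q.2 ^ 2 = q.1 ^ 3 + a * q.1 + 0)).card = 2 := by decide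

/-- For odd `p ∣ k` the equation is `y² = x³` mod `p`, with `p` affine solutions
(`W3283e1.npts_eq`: the sum of `χ(x³) = χ(x)` is zero); for `p = 2` it is `y² = x³ + a x`, and `y ↦ y²`
is the identity of `ZMod 2`, so there are two solutions. -/
theorem Wk_bad (k : ℕ) (c : ℤ) (p : ℕ) (hp : p.Prime) (h : p ∣ 2 * k) :
    BSDS.ap (Wk k c) p = 0 := by
  have : Fact p.Prime := ⟨hp⟩
  unfold BSDS.ap
  rw [Wk_npts k c p hp]
  by_cases hp2 : p = 2
  · subst hp2
    have h2 := Cur_two ((c * (k : ℤ) ^ 2 : ℤ) : ZMod 2)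
    have h3 := Cur_card (c * (k : ℤ) ^ 2) 0 2
    rw [Int.cast_zero] at h3
    rw [h2] at h3
    rw [h3]
    norm_num
  · have hpk : p ∣ k := by
      rcases hp.dvd_mul.1 h with h1 | h1
      · exact absurd ((Nat.prime_dvd_prime_iff_eq hp Nat.prime_two).1 h1) hp2
      · exact h1
    have hk0 : ((c * (k : ℤ) ^ 2 : ℤ) : ZMod p) = 0 := by
      rw [ZMod.intCast_zmod_eq_zero_iff_dvd]
      exact Dvd.dvd.mul_left (dvd_pow (Int.natCast_dvd_natCast.2 hpk) (by norm_num)) c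
    have h1 := W3283e1.npts_eq (c * (k : ℤ) ^ 2) 0 p hp2
    have h2 : ∑ x : ZMod p, quadraticChar (ZMod p) (x ^ 3 + ((c * (k : ℤ) ^ 2 : ℤ) : ZMod p) * x +
        ((0 : ℤ) : ZMod p)) = ∑ x : ZMod p, quadraticChar (ZMod p) x := by
      refine Finset.sum_congr rfl fun x _ => ?_
      rw [hk0, Int.cast_zero, zero_mul, add_zero, add_zero, map_pow]
      by_cases hx : x = 0
      · rw [hx, MulChar.map_zero]
        norm_num
      · rcases quadraticChar_dichotomy hx with h3 | h3 <;> rw [h3] <;> norm_num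
    have h3 : ∑ x : ZMod p, quadraticChar (ZMod p) x = 0 :=
      quadraticChar_sum_zero (by rw [ZMod.ringChar_zmod_n]; exact hp2)
    rw [h2, h3, add_zero] at h1
    rw [h1]
    ring

/-- The local factor is `1` at the primes dividing `2k` and the factor of `LK` at the others; `HasProd`
over the good primes gives the limit of the products over the good primes below `N`. -/
theorem Wk_prod (k : ℕ) (c : ℤ) (L : ℂ → ℂ) (h : LK k c L) (s : ℂ) (hs : 3 / 2 < s.re) :
    Tendsto (fun N : ℕ => ∏ p ∈ (Finset.range N).filter Nat.Prime,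
      (locFactor (Wk k c) p s)⁻¹) atTop (𝓝 (L s)) := by
  classical
  have h1 := h.hprod s hs
  set S : Set ℕ := {p : ℕ | p.Prime ∧ ¬ p ∣ 2 * k} with hS
  set g : ℕ → ℂ := fun p => (1 - ((p : ℂ) + 1 - (W3283e1.npts (c * k ^ 2) 0 p : ℂ)) *
    (p : ℂ) ^ (-s) + (p : ℂ) ^ (1 - 2 * s))⁻¹ with hg
  have h2 : HasProd (g ∘ ((↑) : S → ℕ)) (L s) := h1
  rw [hasProd_subtype_iff_mulIndicator] at h2
  refine h2.tendsto_prod_nat.congr fun N => ?_
  rw [Finset.prod_filter]
  refine Finset.prod_congr rfl fun p _ => ?_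
  by_cases hp : p.Prime
  · rw [if_pos hp]
    by_cases hpk : p ∣ 2 * k
    · rw [Set.mulIndicator_of_notMem (fun h3 => h3.2 hpk)]
      have h4 : (locFactor (Wk k c) p s) = 1 := by
        unfold locFactor BSDS.ep
        rw [Wk_bad k c p hp hpk, if_pos ((Wk_dvd k c h.hc p hp).2 hpk)]
        simp
      rw [h4, inv_one]
    · rw [Set.mulIndicator_of_mem (show p ∈ S from ⟨hp, hpk⟩)]
      have hp0 : (p : ℂ) ≠ 0 := by exact_mod_cast hp.ne_zero
      have h4 : (locFactor (Wk k c) p s) = 1 - ((p : ℂ) + 1 -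
          (W3283e1.npts (c * k ^ 2) 0 p : ℂ)) * (p : ℂ) ^ (-s) + (p : ℂ) ^ (1 - 2 * s) := by
        unfold locFactor BSDS.ep BSDS.ap
        rw [if_neg (fun h5 => hpk ((Wk_dvd k c h.hc p hp).1 h5)), Wk_npts k c p hp]
        have h6 : (p : ℂ) ^ (1 - 2 * s) = (p : ℂ) * (p : ℂ) ^ (-2 * s) := by
          rw [show (1 : ℂ) - 2 * s = 1 + (-2 * s) by ring, Complex.cpow_add _ _ hp0,
            Complex.cpow_one]
        rw [h6]
        push_cast
        ring
      rw [h4]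
  · rw [if_neg hp, Set.mulIndicator_of_notMem (fun h3 => hp h3.1)]

/-- `1 ≤ npts ≤ 2p + 1` (`BSDS.abs_ap_le` with `Wk_npts`). -/
theorem gk_le (k : ℕ) (c : ℤ) (p : ℕ) (hp : p.Prime) : |gk k c p| ≤ p := by
  have hp2 : (2 : ℝ) ≤ p := by exact_mod_cast hp.two_le
  have hp0 : (0 : ℝ) < p := by linarith
  unfold gk
  split_ifs with h
  · rw [abs_zero]
    exact hp0.le
  · have h1 := abs_ap_le (Wk k c) p hp
    unfold BSDS.ap at h1
    rw [Wk_npts k c p hp] at h1
    push_cast at h1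
    set n : ℝ := (W3283e1.npts (c * (k : ℤ) ^ 2) 0 p : ℝ) with hn
    rw [abs_le] at h1
    obtain ⟨h1a, h1b⟩ := h1
    have hn1 : 1 ≤ n := by linarith
    have hn2 : n ≤ 2 * p + 1 := by linarith
    have hn0 : 0 < n := by linarith
    have hq0 : 0 < n / p := div_pos hn0 hp0
    rw [abs_le]
    constructor
    · rw [Real.log_div hn0.ne' hp0.ne']
      have h3 := Real.log_nonneg hn1
      have h4 := Real.log_le_sub_one_of_pos hp0
      linarith
    · have h3 := Real.log_le_sub_one_of_pos hq0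
      have h4 : n / p ≤ 3 := by
        rw [div_le_iff₀ hp0]
        linarith
      linarith

/-- `Σ |gk| e^{-(3/cos θ) cos θ log p} = Σ |gk| p^{-3} ≤ Σ p^{-2}`; compare `GHyp_G`. -/
theorem GHyp_K (k : ℕ) (c : ℤ) (θ : ℝ) (hθ : |θ| < Real.pi / 2) :
    GHyp (cK k c) (vK θ) |Real.tan θ| (3 / Real.cos θ) := by
  have hc := Main_cos_pos θ hθ
  have hre : ∀ p : Nat.Primes, (vK θ p).re = Real.cos θ * Real.log (p : ℕ) := fun p => by
    simp only [vK, Complex.re_mul_ofReal, Complex.exp_ofReal_mul_I_re]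
  have him : ∀ p : Nat.Primes, (vK θ p).im = Real.sin θ * Real.log (p : ℕ) := fun p => by
    simp only [vK, Complex.im_mul_ofReal, Complex.exp_ofReal_mul_I_im]
  have hlog : ∀ p : Nat.Primes, 0 ≤ Real.log (p : ℕ) := fun p => Real.log_natCast_nonneg _
  refine ⟨inferInstance, abs_nonneg _, by positivity, fun i => ?_, fun i => ?_, ?_⟩
  · rw [hre]
    exact mul_nonneg hc.le (hlog i)
  · rw [hre, him, abs_mul, abs_of_nonneg (hlog i), ← mul_assoc, Main_tan θ hθ]
  · have hA : Summable (fun p : Nat.Primes => (((p : ℕ) : ℝ) ^ 2)⁻¹) := by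
      have h : Summable (fun n : ℕ => ((n : ℝ) ^ 2)⁻¹) := Real.summable_nat_pow_inv.2 (by norm_num)
      exact h.comp_injective (f := fun n : ℕ => ((n : ℝ) ^ 2)⁻¹)
        (i := fun p : Nat.Primes => (p : ℕ)) Nat.Primes.coe_nat_injective
    refine Summable.of_nonneg_of_le (fun i => by positivity) (fun i => ?_) hA
    have hp0 : (0 : ℝ) < ((i : ℕ) : ℝ) := by exact_mod_cast i.2.pos
    have h2 : 3 / Real.cos θ * (vK θ i).re = 3 * Real.log (i : ℕ) := by
      rw [hre]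
      field_simp
    have h3 : ‖cK k c i‖ ≤ ((i : ℕ) : ℝ) := by
      rw [cK, Complex.norm_real, Real.norm_eq_abs]
      exact gk_le k c i i.2
    have h4 : Real.exp (-(3 * Real.log (i : ℕ))) = (((i : ℕ) : ℝ) ^ 3)⁻¹ := by
      rw [Real.exp_neg, show (3 : ℝ) * Real.log (i : ℕ) = ((3 : ℕ) : ℝ) * Real.log (i : ℕ) by
        norm_num, ← Real.log_pow, Real.exp_log (by positivity)]
    rw [h2, h4]
    calc ‖cK k c i‖ * (((i : ℕ) : ℝ) ^ 3)⁻¹ ≤ ((i : ℕ) : ℝ) * (((i : ℕ) : ℝ) ^ 3)⁻¹ :=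
          mul_le_mul_of_nonneg_right h3 (by positivity)
      _ = (((i : ℕ) : ℝ) ^ 2)⁻¹ := by
          field_simp

/-- As `GHyp_G` (`cW_summable`). -/
theorem GHyp_W (W : WeierstrassCurve ℤ) (θ : ℝ) (hθ : |θ| < Real.pi / 2) :
    GHyp (cWc W) (vG θ) |Real.tan θ| (3 / Real.cos θ) := by
  have hc := Main_cos_pos θ hθ
  refine ⟨inferInstance, abs_nonneg _, by positivity, fun i => ?_, fun i => ?_, ?_⟩
  · rw [vG_re]
    exact mul_nonneg hc.le (Main_uW_pos i).le
  · rw [vG_re, vG_im, abs_mul, abs_of_pos (Main_uW_pos i), ← mul_assoc, Main_tan θ hθ]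
  · refine (cW_summable W).congr fun i => ?_
    have h2 : 3 / Real.cos θ * (vG θ i).re = 3 * uW i := by
      rw [vG_re]
      field_simp
    rw [h2, cWc, Complex.norm_real, Real.norm_eq_abs]

/-- Uniqueness (identity theorem; `BSDG.L_unique` with `Wk_prod`). -/
theorem LK_unique (k : ℕ) (c : ℤ) (L L' : ℂ → ℂ) (h : LK k c L) (h' : LK k c L') : L = L' := by
  exact L_unique (Wk k c) L L' h.hL h'.hL (fun s hs => Wk_prod k c L h s hs)
    (fun s hs => Wk_prod k c L' h' s hs)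

/-- The zeros of all the functions lie on countably many rays: union over `k`, `c` of the sets of
`BSDG.rays_countable` (or `BSDG.exists_Z` with `Wk_prod`). -/
theorem exists_ZK : ∃ Z : Set ℝ, Z.Countable ∧ ∀ θ : ℝ, θ ∉ Z → |θ| < Real.pi / 2 →
    ∀ (k : ℕ) (c : ℤ) (L : ℂ → ℂ), LK k c L →
      ∀ x : ℝ, 0 < x → L (1 + x * Complex.exp (θ * Complex.I)) ≠ 0 := by
  obtain ⟨Z, hZ, h⟩ := exists_Z
  exact ⟨Z, hZ, fun θ hθ hθ2 k c L hL x hx =>
    h θ hθ hθ2 (Wk k c) L hL.hL (fun s hs => Wk_prod k c L hL s hs) x hx⟩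

end W3283s
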