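import Pool.Agent.W_92892g.Main
import Pool.Agent.W_3283e1_h53.FinH1

/-!
The Birch and Swinnerton-Dyer product of `y² = x³ + c k² x`, `c = ±1`, with a smooth cut-off
(MP_3283e1_nt).

`Gs c v X = Σ c i / Γ(2 + v i / X)` is the Mittag-Leffler mean of the folder W_92892g.
-/

set_option autoImplicit false

namespace W3283s

open Complex MeasureTheory Filter Topology BSDS BSDG

/-- `log (#E(F_p)/p)` for the primes not dividing `2k`, `0` for the others;
`E : y² = x³ + c k² x`. -/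
noncomputable def gk (k : ℕ) (c : ℤ) (p : ℕ) : ℝ :=
  if p ∣ 2 * k then 0 else Real.log ((W3283e1.npts (c * k ^ 2) 0 p : ℝ) / p)

/-- `log (1 - 1/p)`. -/
noncomputable def mp (p : ℕ) : ℝ := Real.log (1 - 1 / (p : ℝ))

/-- The logarithm of the product with smooth cut-off `Re (1/Γ(2 + e^{iθ} v))`, `v = log p / X`. -/
noncomputable def sm (k : ℕ) (c : ℤ) (ρ θ X : ℝ) : ℝ :=
  ∑' p : Nat.Primes, (gw (Complex.exp (θ * Complex.I) * ((Real.log (p : ℕ) / X : ℝ) : ℂ))).re *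
    (gk k c p + ρ * mp p)

noncomputable def cK (k : ℕ) (c : ℤ) (p : Nat.Primes) : ℂ := (gk k c p : ℂ)

noncomputable def cM (p : Nat.Primes) : ℂ := (mp p : ℂ)

noncomputable def vK (θ : ℝ) (p : Nat.Primes) : ℂ :=
  Complex.exp (θ * Complex.I) * (Real.log (p : ℕ) : ℂ)

noncomputable def cWc (W : WeierstrassCurve ℤ) (i : Nat.Primes × ℕ) : ℂ := (cW W i : ℂ)

noncomputable def zWc (i : Nat.Primes × ℕ) : ℂ := (zW i : ℂ)

/-- The curve as an integral Weierstrass equation. -/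
def Wk (k : ℕ) (c : ℤ) : WeierstrassCurve ℤ := ⟨0, 0, 0, c * k ^ 2, 0⟩

/-- `L` is entire and is the Euler product over the primes not dividing `2k`. -/
structure LK (k : ℕ) (c : ℤ) (L : ℂ → ℂ) : Prop where
  hk : 0 < k
  hc : c = 1 ∨ c = -1
  hL : Differentiable ℂ L
  hprod : ∀ s : ℂ, 3 / 2 < s.re → HasProd (fun p : {p : ℕ // p.Prime ∧ ¬ p ∣ 2 * k} =>
    (1 - ((p : ℂ) + 1 - (W3283e1.npts (c * k ^ 2) 0 p : ℂ)) * (p : ℂ) ^ (-s)
      + (p : ℂ) ^ (1 - 2 * s))⁻¹) (L s)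

/-- `sm` by linearity; needs the summability of `GHyp`. -/
theorem gw_im (θ v X : ℝ) : Complex.exp (θ * Complex.I) * ((v / X : ℝ) : ℂ) =
    Complex.exp (θ * Complex.I) * (v : ℂ) / (X : ℂ) := by
  push_cast
  ring

end W3283s
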