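import Pool.Agent.W_3283e1_sm.Defs

set_option autoImplicit false

namespace W3283s

open Complex MeasureTheory Filter Topology BSDS BSDG

variable {ι : Type} {c v : ι → ℂ} {K a : ℝ}

/-- The limit of the Mittag-Leffler means of a series whose exponential continues without zeros to
the thin sector `Ss 3 η`.  Compare the proof of `Gs_formula` (`W_92892g/Abs.lean`) with `q = 0` and
no zeros.  Proof: `exists_log` on `Ss 3 η` (`Ss_open`, `Ss_convex`) with a point `s₀` real and large,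
`e₀ = Es c v s₀`: a holomorphic `g` with `exp g = F`.  On
`S = Ss 3 η ∩ {a + K |Im s| ≤ Re s}` (convex) `g = Es c v` (`log_unique`, `Es_continuousOn`).
`log_limit` gives `l` with `exp l = ℓ` and `g → l` at `0`.  For `Re s ≥ a + K η` in `Ss 3 η`,
`‖g s‖ ≤ Mg c v a` (`Es_bound`), so `lin_bound` gives `‖g s‖ ≤ C (1 + ‖s‖)` on `Ss 2 (η/2)`.
For `X` large and `b = exp (a X + K π/2)` (`≥ 3`), `Gs c v X = LT (Es c v) b X` (`Gs_eq`)
`= LT g b X` (the points `log t / X` of the line lie in `S`: `Abs_logtl_region`, `logtl_mem` with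
`η/2`, `Ss_mono`), `= LT g 3 X` (`LT_shift`), which tends to `l` (`LT_tendsto` with `η/2`). -/
theorem Gs_lim (H : GHyp c v K a) (F : ℂ → ℂ) (η : ℝ) (hη : 0 < η)
    (hF : DifferentiableOn ℂ F (Ss 3 η)) (hne : ∀ s ∈ Ss 3 η, F s ≠ 0)
    (hE : ∀ s ∈ Ss 3 η, a + K * |s.im| ≤ s.re → F s = Complex.exp (Es c v s)) (ℓ : ℂ)
    (hℓ : ℓ ≠ 0) (h0 : Tendsto F (𝓝[Ss 3 η] 0) (𝓝 ℓ)) :
    ∃ l : ℂ, Complex.exp l = ℓ ∧ Tendsto (Gs c v) atTop (𝓝 l) := by
  have hK := H.K0
  have ha := H.apos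
  set U : Set ℂ := Ss 3 η with hU
  have hUo : IsOpen U := Ss_open 3 η
  have hUc : Convex ℝ U := Ss_convex 3 η
  have hb0 : ((a : ℝ) : ℂ) ∈ U := by
    refine ⟨by simpa using hη, ?_⟩
    simp only [Complex.ofReal_im, abs_zero, Complex.ofReal_re]
    linarith
  obtain ⟨g, hgd, hgexp, hgs0⟩ := exists_log U hUo hUc F hF hne (a : ℂ) (Es c v a) hb0
    (hE _ hb0 (by simp)).symm
  have hconv : Convex ℝ (U ∩ {s : ℂ | a + K * |s.im| ≤ s.re}) := by
    refine hUc.inter ?_
    intro x hx y hy p q hp hq hpq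
    simp only [Set.mem_ofPred_eq] at hx hy ⊢
    have h1 : |(p • x + q • y).im| ≤ p * |x.im| + q * |y.im| := by
      simp only [Complex.add_im, Complex.real_smul, Complex.mul_im, Complex.ofReal_re,
        Complex.ofReal_im, zero_mul, add_zero]
      refine (abs_add_le _ _).trans ?_
      rw [abs_mul, abs_mul, abs_of_nonneg hp, abs_of_nonneg hq]
    have h2 : (p • x + q • y).re = p * x.re + q * y.re := by
      simp only [Complex.add_re, Complex.real_smul, Complex.mul_re, Complex.ofReal_re,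
        Complex.ofReal_im, zero_mul, sub_zero]
    rw [h2]
    have h3 := mul_le_mul_of_nonneg_left h1 hK
    have h4 := mul_le_mul_of_nonneg_left hx hp
    have h5 := mul_le_mul_of_nonneg_left hy hq
    have h6 : a = p * a + q * a := by rw [← add_mul, hpq, one_mul]
    nlinarith
  have hgfar : ∀ s ∈ U ∩ {s : ℂ | a + K * |s.im| ≤ s.re}, g s = Es c v s := by
    refine log_unique _ hconv.isPreconnected g (Es c v)
      (hgd.continuousOn.mono Set.inter_subset_left)
      ((Es_continuousOn H).mono Set.inter_subset_right) ?_ (a : ℂ) ⟨hb0, by simp⟩ hgs0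
    intro s hs
    rw [hgexp s hs.1, hE s hs.1 hs.2]
  have hgc : ContinuousOn g U := hgd.continuousOn
  have hgl : Tendsto (fun s => Complex.exp (g s)) (𝓝[U] 0) (𝓝 ℓ) := by
    refine h0.congr' ?_
    filter_upwards [self_mem_nhdsWithin] with s hs
    exact (hgexp s hs).symm
  obtain ⟨l, hl, hgl'⟩ := log_limit U hUc g hgc ℓ hℓ hgl
  have hM := Mg_nonneg H
  have hfar : ∀ s ∈ U, a + K * η ≤ s.re → ‖g s‖ ≤ Mg c v a * (1 + ‖s‖) := by
    intro s hs hsB
    have h1 : a + K * |s.im| ≤ s.re :=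
      le_trans (by
        have := mul_le_mul_of_nonneg_left hs.1.le hK
        linarith) hsB
    rw [hgfar s ⟨hs, h1⟩]
    have h2 := Es_bound H s h1
    have h3 : 0 ≤ ‖s‖ := norm_nonneg _
    nlinarith
  obtain ⟨C0, hC0⟩ := lin_bound η hη g hgc l hgl' _ _ hfar
  set C : ℝ := max C0 0 with hC
  have hC' : ∀ s ∈ Ss 2 (η / 2), ‖g s‖ ≤ C * (1 + ‖s‖) := fun s hs =>
    (hC0 s hs).trans (mul_le_mul_of_nonneg_right (le_max_left _ _) (by positivity))
  have hCpos : 0 ≤ C := le_max_right _ _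
  have hsub : Ss 2 (η / 2) ⊆ U := Ss_mono (by norm_num) (by norm_num) (by linarith)
  have hη2 : 0 < η / 2 := by linarith
  have hlim : Tendsto (fun X : ℝ => LT g 3 X) atTop (𝓝 l) := by
    refine LT_tendsto (η / 2) hη2 g (hgc.mono hsub) C hC' l ?_
    exact hgl'.mono_left (nhdsWithin_mono _ hsub)
  refine ⟨l, hl, hlim.congr' ?_⟩
  filter_upwards [eventually_gt_atTop (Real.pi / (2 * (η / 2))), eventually_ge_atTop (1 : ℝ)]
    with X hX hX1
  have hX0 : 0 < X := by linarith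
  have hgb : ∀ s ∈ Ss 2 (η / 2), ‖g s‖ ≤ C * (1 + ‖s‖ + ‖s‖⁻¹) := fun s hs =>
    (hC' s hs).trans (mul_le_mul_of_nonneg_left (by
      have : 0 ≤ ‖s‖⁻¹ := by positivity
      linarith) hCpos)
  set b : ℝ := Real.exp (a * X + K * (Real.pi / 2) + 2) with hb
  have hKpi : 0 ≤ K * (Real.pi / 2) := mul_nonneg hK (by positivity)
  have haX0 : 0 ≤ a * X := by positivity
  have hb3 : 3 ≤ b := by
    have := Real.add_one_le_exp (a * X + K * (Real.pi / 2) + 2)
    rw [← hb] at this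
    linarith
  have hlogbb : Real.log b = a * X + K * (Real.pi / 2) + 2 := by rw [hb, Real.log_exp]
  have hb1 : 1 ≤ b := by linarith
  have haX : a * X + K * (Real.pi / 2) ≤ Real.log b := by
    rw [hlogbb]
    linarith
  rw [LT_shift (η / 2) hη2 g (hgd.mono hsub) _ hgb 3 b X le_rfl hb3 hX,
    Gs_eq H b X hb1 hX0 haX]
  unfold BSDG.LT
  congr 1
  refine integral_congr_ae (Filter.Eventually.of_forall fun y => ?_)
  simp only
  rw [hgfar _ ⟨hsub (logtl_mem b y X (η / 2) hb3 hη2 hX),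
    Abs_logtl_region b y X K a hb1 hX0 hK haX⟩]

end W3283s
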