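import Pool.Agent.W_3283e1_sm.Core
import Pool.Agent.W_3283e1_sm.Lim

set_option autoImplicit false

namespace W3283s

open Complex MeasureTheory Filter Topology BSDS BSDG

/-- A function analytic and without zeros on the closed half plane, turned by `e^{iθ}`, is
holomorphic without zeros on a thin sector `Ss 3 η`: it is analytic without zeros on a ball
`ball 0 δ` and for `s ∈ Ss 3 η` either `Re s ≥ η / cos θ`, and then
`Re (e^{iθ} s) = cos θ Re s - sin θ Im s ≥ cos θ Re s - η ≥ 0`, or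
`‖s‖ ≤ Re s + |Im s| < η / cos θ + η < δ` for `η` small. -/
theorem turn (Q : ℂ → ℂ) (hQ : ∀ s : ℂ, 0 ≤ s.re → AnalyticAt ℂ Q s ∧ Q s ≠ 0) (θ : ℝ)
    (hθ : |θ| < Real.pi / 2) :
    ∃ η : ℝ, 0 < η ∧
      (∀ s ∈ Ss 3 η, AnalyticAt ℂ Q (Complex.exp (θ * Complex.I) * s) ∧
        Q (Complex.exp (θ * Complex.I) * s) ≠ 0) ∧
      DifferentiableOn ℂ (fun s => Q (Complex.exp (θ * Complex.I) * s)) (Ss 3 η) ∧
      Tendsto (fun s => Q (Complex.exp (θ * Complex.I) * s)) (𝓝[Ss 3 η] 0) (𝓝 (Q 0)) := by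
  have hc := Main_cos_pos θ hθ
  have hc1 : Real.cos θ ≤ 1 := Real.cos_le_one θ
  have h0 := hQ 0 (by simp)
  have h1 : ∀ᶠ z in 𝓝 (0 : ℂ), AnalyticAt ℂ Q z ∧ Q z ≠ 0 :=
    h0.1.eventually_analyticAt.and (h0.1.continuousAt.eventually_ne h0.2)
  obtain ⟨δ, hδ, hball⟩ := Metric.eventually_nhds_iff.1 h1
  have hmain : ∀ s ∈ Ss 3 (δ * Real.cos θ / 4), AnalyticAt ℂ Q (Complex.exp (θ * Complex.I) * s) ∧
      Q (Complex.exp (θ * Complex.I) * s) ≠ 0 := by
    intro s hs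
    have him : |s.im| < δ * Real.cos θ / 4 := hs.1
    have hre : 0 < s.re := Ss_re_pos (by norm_num) hs
    rcases le_or_gt (δ / 4) s.re with h2 | h2
    · refine hQ _ ?_
      have h3 : (Complex.exp (θ * Complex.I) * s).re =
          Real.cos θ * s.re - Real.sin θ * s.im := by
        rw [Complex.mul_re, Complex.exp_ofReal_mul_I_re, Complex.exp_ofReal_mul_I_im]
      have h4 : Real.sin θ * s.im ≤ |s.im| := by
        refine (le_abs_self _).trans ?_
        rw [abs_mul]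
        have := Real.abs_sin_le_one θ
        nlinarith [abs_nonneg s.im]
      have h5 : Real.cos θ * (δ / 4) ≤ Real.cos θ * s.re := mul_le_mul_of_nonneg_left h2 hc.le
      rw [h3]
      linarith
    · refine hball ?_
      rw [dist_zero_right, norm_mul, Complex.norm_exp_ofReal_mul_I, one_mul]
      have h3 := Complex.norm_le_abs_re_add_abs_im s
      rw [abs_of_pos hre] at h3
      nlinarith
  have hcont : Tendsto (fun s : ℂ => Complex.exp (θ * Complex.I) * s) (𝓝 0) (𝓝 0) := by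
    have : Tendsto (fun s : ℂ => Complex.exp (θ * Complex.I) * s) (𝓝 0)
        (𝓝 (Complex.exp (θ * Complex.I) * 0)) := by
      exact (continuous_const.mul continuous_id).tendsto 0
    rwa [mul_zero] at this
  refine ⟨δ * Real.cos θ / 4, by positivity, hmain, fun s hs => ?_, ?_⟩
  · have h2 : DifferentiableAt ℂ (fun s : ℂ => Complex.exp (θ * Complex.I) * s) s := by
      fun_prop
    exact ((hmain s hs).1.differentiableAt.comp s h2).differentiableWithinAt
  · exact (h0.1.continuousAt.tendsto.comp hcont).mono_left nhdsWithin_le_nhds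

/-- Coefficients of `log Q`: twice the two series, on the disjoint union. -/
noncomputable def c2 (k : ℕ) (c : ℤ) : Nat.Primes ⊕ (Nat.Primes × ℕ) → ℂ :=
  Sum.elim (fun p => 2 * cK k c p) (fun i => 2 * cWc (Wk k c) i)

noncomputable def v2 (θ : ℝ) : Nat.Primes ⊕ (Nat.Primes × ℕ) → ℂ :=
  Sum.elim (vK θ) (vG θ)

/-- From `GHyp_K`, `GHyp_W`. -/
theorem GHyp_2 (k : ℕ) (c : ℤ) (θ : ℝ) (hθ : |θ| < Real.pi / 2) :
    GHyp (c2 k c) (v2 θ) |Real.tan θ| (3 / Real.cos θ) := by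
  have H1 := GHyp_K k c θ hθ
  have H2 := GHyp_W (Wk k c) θ hθ
  refine ⟨inferInstance, H1.K0, H1.apos, ?_, ?_, ?_⟩
  · rintro (i | i)
    · exact H1.vre i
    · exact H2.vre i
  · rintro (i | i)
    · exact H1.vim i
    · exact H2.vim i
  · refine Summable.sum _ ((H1.sm.mul_left 2).congr fun i => ?_)
      ((H2.sm.mul_left 2).congr fun i => ?_)
    · change 2 * (‖cK k c i‖ * Real.exp (-(3 / Real.cos θ * (vK θ i).re))) =
        ‖2 * cK k c i‖ * Real.exp (-(3 / Real.cos θ * (vK θ i).re))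
      rw [norm_mul, Complex.norm_ofNat]
      ring
    · change 2 * (‖cWc (Wk k c) i‖ * Real.exp (-(3 / Real.cos θ * (vG θ i).re))) =
        ‖2 * cWc (Wk k c) i‖ * Real.exp (-(3 / Real.cos θ * (vG θ i).re))
      rw [norm_mul, Complex.norm_ofNat]
      ring

/-- `Summable.tsum_sum` (a series over a disjoint union), `Es_summable`. -/
theorem Es_2 (k : ℕ) (c : ℤ) (θ : ℝ) (hθ : |θ| < Real.pi / 2) (s : ℂ)
    (hs : 3 / Real.cos θ + |Real.tan θ| * |s.im| ≤ s.re) :
    Es (c2 k c) (v2 θ) s = 2 * Es (cK k c) (vK θ) s + 2 * Es (cWc (Wk k c)) (vG θ) s := by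
  have h1 : ∀ i, c2 k c (Sum.inl i) * Complex.exp (-(v2 θ (Sum.inl i) * s)) =
      2 * (cK k c i * Complex.exp (-(vK θ i * s))) := fun i => by
    change 2 * cK k c i * Complex.exp (-(vK θ i * s)) = _
    ring
  have h2 : ∀ i, c2 k c (Sum.inr i) * Complex.exp (-(v2 θ (Sum.inr i) * s)) =
      2 * (cWc (Wk k c) i * Complex.exp (-(vG θ i * s))) := fun i => by
    change 2 * cWc (Wk k c) i * Complex.exp (-(vG θ i * s)) = _
    ring
  have S1 := (Es_summable (GHyp_K k c θ hθ) s hs).mul_left 2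
  have S2 := (Es_summable (GHyp_W (Wk k c) θ hθ) s hs).mul_left 2
  unfold Es
  rw [Summable.tsum_sum (f := fun i => c2 k c i * Complex.exp (-(v2 θ i * s)))
    (S1.congr fun i => (h1 i).symm) (S2.congr fun i => (h2 i).symm),
    tsum_congr h1, tsum_congr h2, tsum_mul_left, tsum_mul_left]

/-- The same for the means (`Gs_summable`). -/
theorem Gs_2 (k : ℕ) (c : ℤ) (θ : ℝ) (hθ : |θ| < Real.pi / 2) (X : ℝ) (hX : 0 < X) :
    Gs (c2 k c) (v2 θ) X = 2 * Gs (cK k c) (vK θ) X + 2 * Gs (cWc (Wk k c)) (vG θ) X := by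
  have h1 : ∀ i, c2 k c (Sum.inl i) * gw (v2 θ (Sum.inl i) / X) =
      2 * (cK k c i * gw (vK θ i / X)) := fun i => by
    change 2 * cK k c i * gw (vK θ i / X) = _
    ring
  have h2 : ∀ i, c2 k c (Sum.inr i) * gw (v2 θ (Sum.inr i) / X) =
      2 * (cWc (Wk k c) i * gw (vG θ i / X)) := fun i => by
    change 2 * cWc (Wk k c) i * gw (vG θ i / X) = _
    ring
  have S1 := (Gs_summable (GHyp_K k c θ hθ) X hX).mul_left 2
  have S2 := (Gs_summable (GHyp_W (Wk k c) θ hθ) X hX).mul_left 2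
  unfold Gs
  rw [Summable.tsum_sum (f := fun i => c2 k c i * gw (v2 θ i / X))
    (S1.congr fun i => (h1 i).symm) (S2.congr fun i => (h2 i).symm),
    tsum_congr h1, tsum_congr h2, tsum_mul_left, tsum_mul_left]

/-- `core` at `e^{iθ} s`, with `L(1 + e^{iθ} s) = exp (Es (cWc (Wk k c)) (vG θ) s)` (`FG_exp` with
`r = 0`, or `euler_exp`; `Wk_prod`; `Re (e^{iθ} s) ≥ 3` for these `s`, see the proof of
`FG_exp`). -/
theorem Q_exp (k : ℕ) (c : ℤ) (L : ℂ → ℂ) (h : LK k c L) (Q : ℂ → ℂ)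
    (hid : ∀ s : ℂ, 1 / 2 < s.re → (L (1 + s)) ^ 2 * Complex.exp (2 *
        ∑' p : Nat.Primes, (gk k c p : ℂ) * Complex.exp (-(s * Real.log (p : ℕ)))) = Q s)
    (θ : ℝ) (hθ : |θ| < Real.pi / 2) (s : ℂ)
    (hs : 3 / Real.cos θ + |Real.tan θ| * |s.im| ≤ s.re) :
    Q (Complex.exp (θ * Complex.I) * s) = Complex.exp (Es (c2 k c) (v2 θ) s) := by
  have hc := Main_cos_pos θ hθ
  obtain ⟨z, hz⟩ : ∃ z : ℂ, z = Complex.exp (θ * Complex.I) * s := ⟨_, rfl⟩
  have hzre : 3 ≤ z.re := by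
    have h1 : z.re = Real.cos θ * s.re - Real.sin θ * s.im := by
      rw [hz, Complex.mul_re, Complex.exp_ofReal_mul_I_re, Complex.exp_ofReal_mul_I_im]
    have h2 : Real.sin θ * s.im ≤ |Real.sin θ| * |s.im| := by
      rw [← abs_mul]
      exact le_abs_self _
    have h3 := mul_le_mul_of_nonneg_left hs hc.le
    have h4 : Real.cos θ * (3 / Real.cos θ + |Real.tan θ| * |s.im|) =
        3 + |Real.sin θ| * |s.im| := by
      rw [← Main_tan θ hθ]
      field_simp
    rw [h1]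
    linarith
  have e1 : Es (cWc (Wk k c)) (vG θ) s = Dser (cW (Wk k c)) uW z := by
    unfold Es Dser
    refine tsum_congr fun i => ?_
    have h1 : vG θ i * s = (uW i : ℂ) * z := by
      rw [vG, hz]
      ring
    rw [h1, cWc]
  have e2 : Es (cK k c) (vK θ) s =
      ∑' p : Nat.Primes, (gk k c p : ℂ) * Complex.exp (-(z * Real.log (p : ℕ))) := by
    unfold Es
    refine tsum_congr fun i => ?_
    have h1 : vK θ i * s = z * (Real.log (i : ℕ) : ℂ) := by
      rw [vK, hz]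
      ring
    rw [h1, cK]
  rw [← hz, ← hid z (by linarith), Es_2 k c θ hθ s hs, e1, e2,
    euler_exp (Wk k c) L (Wk_prod k c L h) z hzre, Complex.exp_add, sq, ← Complex.exp_add,
    ← two_mul, mul_comm]

/-- `Gs_lim` for `c2`, `v2` and `F s = Q(e^{iθ} s)` (`core`, `turn`), `ℓ = 2`: the limit `l` of
`2 (Gs (cK k c) + Gs (cWc (Wk k c)))` has `exp l = 2`, so its real part is `log 2`. -/
theorem half (k : ℕ) (c : ℤ) (L : ℂ → ℂ) (h : LK k c L) (θ : ℝ) (hθ : |θ| < Real.pi / 2) :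
    Tendsto (fun X : ℝ => (Gs (cK k c) (vK θ) X).re + (Gs (cWc (Wk k c)) (vG θ) X).re) atTop
      (𝓝 (Real.log 2 / 2)) := by
  obtain ⟨Q, hQ, hQ0, hid⟩ := core k c L h
  obtain ⟨η, hη, ht1, ht2, ht3⟩ := turn Q hQ θ hθ
  rw [hQ0] at ht3
  obtain ⟨l, hl, hlim⟩ := Gs_lim (GHyp_2 k c θ hθ)
    (fun s => Q (Complex.exp (θ * Complex.I) * s)) η hη ht2 (fun s hs => (ht1 s hs).2)
    (fun s _ hs => Q_exp k c L h Q hid θ hθ s hs) 2 two_ne_zero ht3
  have hlre : l.re = Real.log 2 := by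
    have h1 := congrArg norm hl
    rw [Complex.norm_exp, Complex.norm_ofNat] at h1
    rw [← h1, Real.log_exp]
  have h2 : Tendsto (fun X : ℝ => (Gs (c2 k c) (v2 θ) X).re / 2) atTop (𝓝 (l.re / 2)) :=
    ((Complex.continuous_re.tendsto l).comp hlim).div_const 2
  rw [hlre] at h2
  refine h2.congr' ?_
  filter_upwards [eventually_gt_atTop (0 : ℝ)] with X hX
  rw [Gs_2 k c θ hθ X hX, Complex.add_re]
  have h3 : ∀ z : ℂ, (2 * z).re = 2 * z.re := fun z => by
    simp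
  rw [h3, h3]
  ring

end W3283s
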