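import Pool.Agent.W_3283e1_sm.Defs

set_option autoImplicit false

namespace W3283s

open Complex MeasureTheory Filter Topology BSDS BSDG

/-- The weights are bounded on the ray: `gw_LT` (or `gw_eq`) with `b` so large that
`log b * cos θ ≥ |sin θ| π/2`, `norm_exp_log`, `ker_norm_le`, `∫ dy/(1+y²) = π`. -/
theorem gw_bdd (θ : ℝ) (hθ : |θ| < Real.pi / 2) :
    ∃ M : ℝ, ∀ t : ℝ, 0 ≤ t → ‖gw (Complex.exp (θ * Complex.I) * (t : ℂ))‖ ≤ M := by
  have hc := Main_cos_pos θ hθ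
  have hpi := Real.pi_pos
  have hb : 1 ≤ Real.exp (|Real.tan θ| * (Real.pi / 2)) := Real.one_le_exp (by positivity)
  set b := Real.exp (|Real.tan θ| * (Real.pi / 2)) with hbdef
  have hb0 : 0 < b := by linarith
  refine ⟨‖((1 / (2 * Real.pi) : ℝ) : ℂ)‖ * ∫ y : ℝ, ‖ker (tl b y)‖, fun t ht => ?_⟩
  have hre : (Complex.exp (θ * Complex.I) * (t : ℂ)).re = Real.cos θ * t := by
    simp [Complex.exp_ofReal_mul_I_re]
  have him : (Complex.exp (θ * Complex.I) * (t : ℂ)).im = Real.sin θ * t := by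
    simp [Complex.exp_ofReal_mul_I_im]
  rw [gw_eq _ (by rw [hre]; positivity) b hb, norm_mul]
  refine mul_le_mul_of_nonneg_left ?_ (norm_nonneg _)
  refine norm_integral_le_of_norm_le (ker_integrable b hb).norm
    (Filter.Eventually.of_forall fun y => ?_)
  rw [norm_mul]
  refine mul_le_of_le_one_right (norm_nonneg _) ?_
  refine (norm_exp_log _ b y hb0).trans ?_
  rw [hre, him, Real.exp_le_one_iff, abs_mul, abs_of_nonneg ht]
  have h1 : Real.log b ≤ Real.log ‖tl b y‖ := Real.log_le_log hb0 (le_norm_tl b y hb0.le)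
  have h2 : Real.log b = |Real.tan θ| * (Real.pi / 2) := by rw [hbdef, Real.log_exp]
  have h3 := mul_le_mul_of_nonneg_left h1 (mul_nonneg hc.le ht)
  have h4 : Real.cos θ * t * Real.log b = |Real.sin θ| * t * (Real.pi / 2) := by
    rw [h2, ← Main_tan θ hθ]
    ring
  linarith

/-- `gw` is entire (`Complex.differentiable_one_div_Gamma`), `gw 0 = 1`. -/
theorem gw_cont : Continuous gw := by
  unfold gw
  exact Complex.differentiable_one_div_Gamma.continuous.comp (continuous_const.add continuous_id)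

theorem gw_zero : gw 0 = 1 := by
  simp [gw]

/-- Dominated convergence for series (`tendsto_tsum_of_dominated_convergence`). -/
theorem tannery {ι : Type} (c : ι → ℝ) (hc : Summable (fun i => |c i|)) (u : ι → ℝ)
    (hu : ∀ i, 0 ≤ u i) (θ : ℝ) (hθ : |θ| < Real.pi / 2) :
    (∀ X : ℝ, 0 < X → Summable (fun i => (c i : ℂ) *
      gw (Complex.exp (θ * Complex.I) * (u i : ℂ) / (X : ℂ)))) ∧
    Tendsto (fun X : ℝ => ∑' i, (c i : ℂ) *
      gw (Complex.exp (θ * Complex.I) * (u i : ℂ) / (X : ℂ))) atTop (𝓝 ((∑' i, c i : ℝ) : ℂ)) := by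
  obtain ⟨M, hM⟩ := gw_bdd θ hθ
  have harg : ∀ (i : ι) (X : ℝ), Complex.exp (θ * Complex.I) * (u i : ℂ) / (X : ℂ) =
      Complex.exp (θ * Complex.I) * ((u i / X : ℝ) : ℂ) := fun i X => (gw_im θ (u i) X).symm
  have hb : ∀ (X : ℝ), 0 < X → ∀ i : ι, ‖(c i : ℂ) *
      gw (Complex.exp (θ * Complex.I) * (u i : ℂ) / (X : ℂ))‖ ≤ |c i| * M := by
    intro X hX i
    rw [norm_mul, Complex.norm_real, Real.norm_eq_abs, harg]
    exact mul_le_mul_of_nonneg_left (hM _ (div_nonneg (hu i) hX.le)) (abs_nonneg _)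
  refine ⟨fun X hX => Summable.of_norm_bounded (hc.mul_right M) (hb X hX), ?_⟩
  have hlim : ((∑' i, c i : ℝ) : ℂ) = ∑' i, (c i : ℂ) * gw 0 := by
    rw [Complex.ofReal_tsum]
    refine tsum_congr fun i => ?_
    rw [gw_zero, mul_one]
  rw [hlim]
  refine tendsto_tsum_of_dominated_convergence (hc.mul_right M) (fun i => ?_) ?_
  · refine Tendsto.const_mul _ ?_
    have h1 : Tendsto (fun X : ℝ => Complex.exp (θ * Complex.I) * ((u i / X : ℝ) : ℂ)) atTop
        (𝓝 (Complex.exp (θ * Complex.I) * ((0 : ℝ) : ℂ))) := by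
      refine Tendsto.const_mul _ ?_
      exact (Complex.continuous_ofReal.tendsto 0).comp (tendsto_const_nhds.div_atTop tendsto_id)
    rw [Complex.ofReal_zero, mul_zero] at h1
    refine ((gw_cont.tendsto 0).comp h1).congr fun X => ?_
    rw [Function.comp_apply, harg]
  · filter_upwards [eventually_gt_atTop (0 : ℝ)] with X hX i
    exact hb X hX i

/-- `|zW i|` with `m ≥ 1` (prime powers of exponent at least two) is summable:
`Σ_{p, m ≥ 2} 1/(m p^m) ≤ Σ_p 1/(p (p-1))`. -/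
theorem zW_two_summable : Summable (fun i : Nat.Primes × ℕ => zW (i.1, i.2 + 1)) := by
  have hA : Summable (fun p : Nat.Primes => (((p : ℕ) : ℝ) ^ 2)⁻¹) := by
    have h : Summable (fun n : ℕ => ((n : ℝ) ^ 2)⁻¹) := Real.summable_nat_pow_inv.2 (by norm_num)
    exact h.comp_injective (f := fun n : ℕ => ((n : ℝ) ^ 2)⁻¹) (i := fun p : Nat.Primes => (p : ℕ))
      Nat.Primes.coe_nat_injective
  have hB : Summable (fun m : ℕ => ((1 / 2 : ℝ)) ^ m) :=
    summable_geometric_of_lt_one (by norm_num) (by norm_num)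
  have hAB := hA.mul_of_nonneg hB (fun p => by positivity) (fun m => by positivity)
  refine Summable.of_nonneg_of_le (fun i => (zW_pos _).le) (fun i => ?_) hAB
  have hp : (2 : ℝ) ≤ ((i.1 : ℕ) : ℝ) := by exact_mod_cast i.1.2.two_le
  have hp0 : (0 : ℝ) < ((i.1 : ℕ) : ℝ) := by linarith
  unfold zW
  simp only
  have h1 : (1 : ℝ) ≤ ((i.2 + 1 : ℕ) : ℝ) + 1 := by
    have : (0 : ℝ) ≤ ((i.2 + 1 : ℕ) : ℝ) := Nat.cast_nonneg _
    linarith
  have h2 : (2 : ℝ) ^ i.2 ≤ ((i.1 : ℕ) : ℝ) ^ i.2 := pow_le_pow_left₀ (by norm_num) hp _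
  have h3 : ((i.1 : ℕ) : ℝ) ^ 2 * 2 ^ i.2 ≤
      (((i.2 + 1 : ℕ) : ℝ) + 1) * ((i.1 : ℕ) : ℝ) ^ (i.2 + 1 + 1) := by
    have e1 : ((i.1 : ℕ) : ℝ) ^ (i.2 + 1 + 1) = ((i.1 : ℕ) : ℝ) ^ 2 * ((i.1 : ℕ) : ℝ) ^ i.2 := by
      ring
    rw [e1]
    calc ((i.1 : ℕ) : ℝ) ^ 2 * 2 ^ i.2 ≤ ((i.1 : ℕ) : ℝ) ^ 2 * ((i.1 : ℕ) : ℝ) ^ i.2 := by gcongr
      _ = 1 * (((i.1 : ℕ) : ℝ) ^ 2 * ((i.1 : ℕ) : ℝ) ^ i.2) := (one_mul _).symm
      _ ≤ _ := mul_le_mul_of_nonneg_right h1 (by positivity)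
  rw [one_div_pow, ← one_div, one_div_mul_one_div]
  exact one_div_le_one_div_of_le (by positivity) h3

/-- `- log (1 - 1/p) = Σ_{m ≥ 0} zW (p, m)`. -/
theorem mp_eq (p : Nat.Primes) : HasSum (fun m : ℕ => zW (p, m)) (-mp p) := by
  have hp : (2 : ℝ) ≤ ((p : ℕ) : ℝ) := by exact_mod_cast p.2.two_le
  have hp0 : (0 : ℝ) < ((p : ℕ) : ℝ) := by linarith
  have h1 : |1 / ((p : ℕ) : ℝ)| < 1 := by
    rw [abs_of_pos (by positivity), div_lt_one hp0]
    linarith
  refine (Real.hasSum_pow_div_log_of_abs_lt_one h1).congr_fun fun m => ?_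
  unfold zW
  simp only
  rw [one_div_pow]
  field_simp

/-- `GHyp` for the two series of Mertens. -/
theorem GHyp_M (θ : ℝ) (hθ : |θ| < Real.pi / 2) :
    GHyp cM (vK θ) |Real.tan θ| (3 / Real.cos θ) := by
  have hc := Main_cos_pos θ hθ
  have hlog : ∀ p : Nat.Primes, 0 ≤ Real.log ((p : ℕ) : ℝ) := fun p => Real.log_natCast_nonneg _
  have hre : ∀ p : Nat.Primes, (vK θ p).re = Real.cos θ * Real.log ((p : ℕ) : ℝ) := by
    intro p
    unfold vK
    rw [Complex.re_mul_ofReal, Complex.exp_ofReal_mul_I_re]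
  have him : ∀ p : Nat.Primes, (vK θ p).im = Real.sin θ * Real.log ((p : ℕ) : ℝ) := by
    intro p
    unfold vK
    rw [Complex.im_mul_ofReal, Complex.exp_ofReal_mul_I_im]
  refine ⟨inferInstance, abs_nonneg _, by positivity, fun p => ?_, fun p => ?_, ?_⟩
  · rw [hre]
    exact mul_nonneg hc.le (hlog p)
  · rw [hre, him, abs_mul, abs_of_nonneg (hlog p), ← mul_assoc, Main_tan θ hθ]
  · have hA : Summable (fun p : Nat.Primes => (((p : ℕ) : ℝ) ^ 3)⁻¹) := by
      have h : Summable (fun n : ℕ => ((n : ℝ) ^ 3)⁻¹) :=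
        Real.summable_nat_pow_inv.2 (by norm_num)
      exact h.comp_injective (f := fun n : ℕ => ((n : ℝ) ^ 3)⁻¹)
        (i := fun p : Nat.Primes => (p : ℕ)) Nat.Primes.coe_nat_injective
    refine Summable.of_nonneg_of_le (fun p => by positivity) (fun p => ?_) hA
    have hp : (2 : ℝ) ≤ ((p : ℕ) : ℝ) := by exact_mod_cast p.2.two_le
    have hp0 : (0 : ℝ) < ((p : ℕ) : ℝ) := by linarith
    have h2 : 3 / Real.cos θ * (vK θ p).re = 3 * Real.log ((p : ℕ) : ℝ) := by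
      rw [hre]
      field_simp
    have h3 : Real.exp (-(3 * Real.log ((p : ℕ) : ℝ))) = (((p : ℕ) : ℝ) ^ 3)⁻¹ := by
      rw [Real.exp_neg, mul_comm, Real.exp_mul, Real.exp_log hp0]
      norm_num
    have h4 : ‖cM p‖ ≤ 1 := by
      unfold cM mp
      rw [Complex.norm_real, Real.norm_eq_abs]
      have e0 : 1 / ((p : ℕ) : ℝ) ≤ 1 / 2 := one_div_le_one_div_of_le (by norm_num) hp
      have e00 : 0 < 1 / ((p : ℕ) : ℝ) := by positivity
      have e1 : Real.log (1 - 1 / ((p : ℕ) : ℝ)) ≤ 0 := Real.log_nonpos (by linarith) (by linarith)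
      have e2 : Real.log (1 / 2) ≤ Real.log (1 - 1 / ((p : ℕ) : ℝ)) :=
        Real.log_le_log (by norm_num) (by linarith)
      rw [one_div, Real.log_inv] at e2
      have e3 := Real.log_two_lt_d9
      rw [abs_le]
      constructor <;> linarith
    rw [h2, h3]
    exact mul_le_of_le_one_left (by positivity) h4

theorem GHyp_Z (θ : ℝ) (hθ : |θ| < Real.pi / 2) :
    GHyp zWc (vG θ) |Real.tan θ| (3 / Real.cos θ) := by
  have hc := Main_cos_pos θ hθ
  refine ⟨inferInstance, abs_nonneg _, by positivity, fun i => ?_, fun i => ?_, ?_⟩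
  · rw [vG_re]
    exact mul_nonneg hc.le (Main_uW_pos i).le
  · rw [vG_re, vG_im, abs_mul, abs_of_pos (Main_uW_pos i), ← mul_assoc, Main_tan θ hθ]
  · refine zW_summable.congr fun i => ?_
    have h2 : 3 / Real.cos θ * (vG θ i).re = 3 * uW i := by
      rw [vG_re]
      field_simp
    rw [h2, zWc, Complex.norm_real, Real.norm_of_nonneg (zW_pos i).le]

/-- The series over primes and the series over prime powers:
`Gs cM (vK θ) X + Gs zWc (vG θ) X
  = - Σ_p Σ_{m ≥ 2} zW (p, m-1) (gw (v_p/X) - gw (m v_p/X)) → 0` by `tannery` (twice, with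
`u (p, m) = log p` and `u (p, m) = m log p`, over `(p, m) ↦ zW (p, m + 1)`). -/
theorem zeta_diff (θ : ℝ) (hθ : |θ| < Real.pi / 2) :
    Tendsto (fun X : ℝ => Gs cM (vK θ) X + Gs zWc (vG θ) X) atTop (𝓝 0) := by
  have hc2 : Summable (fun i : Nat.Primes × ℕ => |zW (i.1, i.2 + 1)|) := by
    refine zW_two_summable.congr fun i => ?_
    rw [abs_of_pos (zW_pos _)]
  have hTa := tannery (fun i : Nat.Primes × ℕ => zW (i.1, i.2 + 1)) hc2
    (fun i : Nat.Primes × ℕ => uW (i.1, i.2 + 1)) (fun i => (Main_uW_pos _).le) θ hθ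
  have hTb := tannery (fun i : Nat.Primes × ℕ => zW (i.1, i.2 + 1)) hc2
    (fun i : Nat.Primes × ℕ => Real.log ((i.1 : ℕ) : ℝ)) (fun i => Real.log_natCast_nonneg _) θ hθ
  have hlim := hTa.2.sub hTb.2
  rw [sub_self] at hlim
  refine hlim.congr' ?_
  filter_upwards [eventually_gt_atTop (0 : ℝ)] with X hX
  have hSa := hTa.1 X hX
  have hSb := hTb.1 X hX
  have hS1 := Gs_summable (GHyp_Z θ hθ) X hX
  have hS2 := Gs_summable (GHyp_M θ hθ) X hX
  have hrow : ∀ p : Nat.Primes, ∑' m : ℕ, zWc (p, m) * gw (vG θ (p, m) / X) =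
      zWc (p, 0) * gw (vG θ (p, 0) / X) +
        ∑' m : ℕ, (zW (p, m + 1) : ℂ) *
          gw (Complex.exp (θ * Complex.I) * (uW (p, m + 1) : ℂ) / (X : ℂ)) := by
    intro p
    rw [(hS1.prod_factor p).tsum_eq_zero_add]
    rfl
  have hcM : ∀ p : Nat.Primes, cM p * gw (vK θ p / X) =
      -(zWc (p, 0) * gw (vG θ (p, 0) / X)) -
        ∑' m : ℕ, (zW (p, m + 1) : ℂ) *
          gw (Complex.exp (θ * Complex.I) * (Real.log ((p : ℕ) : ℝ) : ℂ) / (X : ℂ)) := by
    intro p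
    have h1 := mp_eq p
    have h2 : -mp p = zW (p, 0) + ∑' m : ℕ, zW (p, m + 1) := by
      rw [← h1.tsum_eq, h1.summable.tsum_eq_zero_add]
    have h3 : vG θ (p, 0) = vK θ p := by
      unfold vG vK uW
      simp
    have h4 : cM p = -((zW (p, 0) : ℂ) + ∑' m : ℕ, (zW (p, m + 1) : ℂ)) := by
      have h5 : mp p = -(zW (p, 0) + ∑' m : ℕ, zW (p, m + 1)) := by rw [← h2, neg_neg]
      unfold cM
      rw [h5]
      push_cast
      rfl
    rw [h3, tsum_mul_right, h4]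
    unfold zWc vK
    ring
  have hZ : Gs zWc (vG θ) X = ∑' p : Nat.Primes, (zWc (p, 0) * gw (vG θ (p, 0) / X) +
        ∑' m : ℕ, (zW (p, m + 1) : ℂ) *
          gw (Complex.exp (θ * Complex.I) * (uW (p, m + 1) : ℂ) / (X : ℂ))) := by
    unfold Gs
    rw [hS1.tsum_prod]
    exact tsum_congr hrow
  have hM : Gs cM (vK θ) X = ∑' p : Nat.Primes, (-(zWc (p, 0) * gw (vG θ (p, 0) / X)) -
        ∑' m : ℕ, (zW (p, m + 1) : ℂ) *
          gw (Complex.exp (θ * Complex.I) * (Real.log ((p : ℕ) : ℝ) : ℂ) / (X : ℂ))) := by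
    unfold Gs
    exact tsum_congr hcM
  have hs1 : Summable (fun p : Nat.Primes => (zWc (p, 0) * gw (vG θ (p, 0) / X) +
        ∑' m : ℕ, (zW (p, m + 1) : ℂ) *
          gw (Complex.exp (θ * Complex.I) * (uW (p, m + 1) : ℂ) / (X : ℂ)))) :=
    hS1.prod.congr fun p => hrow p
  have hs2 : Summable (fun p : Nat.Primes => (-(zWc (p, 0) * gw (vG θ (p, 0) / X)) -
        ∑' m : ℕ, (zW (p, m + 1) : ℂ) *
          gw (Complex.exp (θ * Complex.I) * (Real.log ((p : ℕ) : ℝ) : ℂ) / (X : ℂ)))) :=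
    hS2.congr fun p => hcM p
  rw [hZ, hM, ← hs2.tsum_add hs1, hSa.tsum_prod, hSb.tsum_prod, ← hSa.prod.tsum_sub hSb.prod]
  refine tsum_congr fun p => ?_
  ring

end W3283s
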